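import Mathlib

set_option autoImplicit false

namespace Pool.Agent.Y353.CH

/-- the linear map `(x, z) ↦ (s x - n z, x)` -/
def M {F : Type*} [Field F] (s n : F) (w : F × F) : F × F := (s * w.1 - n * w.2, w.1)

/-- Over every finite field there is a Möbius map `y ↦ s - n / y` which permutes the points of the
projective line transitively; in particular every orbit visits the point at infinity. -/
theorem exists_transitive (F : Type) [Field F] [Fintype F] :
    ∃ s n : F, n ≠ 0 ∧ ∀ w : F × F, w ≠ 0 → ∃ j, ((M s n)^[j] w).2 = 0 := by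
  classical
  set K := AlgebraicClosure F with hK
  set q := Fintype.card F with hq
  have hq2 : 2 ≤ q := by
    have := Fintype.one_lt_card (α := F)
    omega
  obtain ⟨N, hN⟩ : ∃ N, N + 1 = q ^ 2 := ⟨q ^ 2 - 1, by
    have : 1 ≤ q ^ 2 := Nat.one_le_pow _ _ (by omega)
    omega⟩
  have hNq : q - 1 < N := by nlinarith [Nat.sub_add_cancel (show 1 ≤ q by omega)]
  have hqK : ((q : ℕ) : K) = 0 := by
    have h1 : ((q : ℕ) : F) = 0 := FiniteField.cast_card_eq_zero F
    have h2 := congrArg (algebraMap F K) h1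
    simpa using h2
  have hNK : ((N : ℕ) : K) ≠ 0 := by
    intro h
    have h1 : ((N + 1 : ℕ) : K) = ((q ^ 2 : ℕ) : K) := by rw [hN]
    push_cast at h1
    rw [h, hqK] at h1
    norm_num at h1
  have hN0 : N ≠ 0 := by omega
  -- a primitive root
  have : NeZero ((N : ℕ) : K) := ⟨hNK⟩
  have : NeZero N := ⟨hN0⟩
  obtain ⟨θ, hθ⟩ : ∃ θ : K, IsPrimitiveRoot θ N := by
    obtain ⟨θ, hθ⟩ := IsAlgClosed.exists_root (Polynomial.cyclotomic N K) (by
      rw [Polynomial.degree_cyclotomic]
      have : 0 < Nat.totient N := Nat.totient_pos.mpr (Nat.pos_of_ne_zero hN0)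
      exact_mod_cast this.ne')
    exact ⟨θ, Polynomial.isRoot_cyclotomic_iff.mp hθ⟩
  have hθN : θ ^ N = 1 := hθ.pow_eq_one
  have hθ0 : θ ≠ 0 := hθ.ne_zero hN0
  have hθq2 : (θ ^ q) ^ q = θ := by
    rw [← pow_mul, ← pow_two, ← hN, pow_succ, hθN, one_mul]
  -- Frobenius
  let Fr : K →ₐ[F] K := FiniteField.frobeniusAlgHom F K
  have hFr : ∀ x : K, Fr x = x ^ q := fun x => rfl
  have hfix : ∀ x : K, x ^ q = x → ∃ a : F, algebraMap F K a = x := by
    intro x hx
    have h1 : (∏ a : F, (Polynomial.X - Polynomial.C a)) =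
        (Polynomial.X ^ q - Polynomial.X : Polynomial F) := by
      have hm : (Polynomial.X ^ q - Polynomial.X : Polynomial F).Monic :=
        Polynomial.monic_X_pow_sub (by
          rw [Polynomial.degree_X]
          exact_mod_cast hq2)
      have hc : Multiset.card (Polynomial.X ^ q - Polynomial.X : Polynomial F).roots =
          (Polynomial.X ^ q - Polynomial.X : Polynomial F).natDegree := by
        rw [hq, FiniteField.roots_X_pow_card_sub_X, FiniteField.X_pow_card_sub_X_natDegree_eq F
          (Fintype.one_lt_card)]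
        rfl
      have h3 := Polynomial.prod_multiset_X_sub_C_of_monic_of_roots_card_eq hm hc
      rw [hq, FiniteField.roots_X_pow_card_sub_X] at h3
      exact h3
    have h2 := congrArg (fun f => Polynomial.aeval x f) h1
    simp only [map_prod, map_sub, Polynomial.aeval_X, Polynomial.aeval_C, map_pow] at h2
    rw [hx, sub_self, Finset.prod_eq_zero_iff] at h2
    obtain ⟨a, -, ha⟩ := h2
    exact ⟨a, (sub_eq_zero.mp ha).symm⟩
  have hθF : ∀ a : F, θ ≠ algebraMap F K a := by
    intro a ha
    have h1 : θ ^ q = θ := by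
      rw [ha, ← map_pow, hq, FiniteField.pow_card]
    have h2 : θ ^ (q - 1) = 1 := by
      have h3 : θ ^ (q - 1) * θ = 1 * θ := by
        rw [← pow_succ, Nat.sub_add_cancel (by omega), h1, one_mul]
      exact mul_right_cancel₀ hθ0 h3
    have h3 := hθ.dvd_of_pow_eq_one _ h2
    have h4 := Nat.le_of_dvd (by omega) h3
    omega
  obtain ⟨s, hs⟩ := hfix (θ + θ ^ q) (by
    have := map_add Fr θ (θ ^ q)
    rw [hFr, hFr, hFr, hθq2] at this
    rw [this, add_comm])
  obtain ⟨n, hn⟩ := hfix (θ * θ ^ q) (by rw [mul_pow, hθq2, mul_comm])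
  have hn0 : n ≠ 0 := by
    rintro rfl
    rw [map_zero] at hn
    exact (mul_ne_zero hθ0 (pow_ne_zero _ hθ0)) hn.symm
  have hquad : θ ^ 2 - algebraMap F K s * θ + algebraMap F K n = 0 := by
    rw [hs, hn]; ring
  let ι : F × F → K := fun w => algebraMap F K w.1 * θ - algebraMap F K n * algebraMap F K w.2
  have hιM : ∀ w, ι (M s n w) = θ * ι w := by
    intro w
    simp only [ι, M, map_sub, map_mul]
    linear_combination (-(algebraMap F K w.1)) * hquad
  have hιMj : ∀ j w, ι ((M s n)^[j] w) = θ ^ j * ι w := by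
    intro j
    induction j with
    | zero => intro w; simp
    | succ j ih =>
      intro w
      rw [Function.iterate_succ_apply, ih, hιM, pow_succ]
      ring
  have hιinj : ∀ x z : F, algebraMap F K x * θ = algebraMap F K n * algebraMap F K z →
      x = 0 ∧ z = 0 := by
    intro x z h
    have hx : x = 0 := by
      by_contra hx
      apply hθF (n * z / x)
      rw [map_div₀, map_mul, eq_div_iff (by simpa using hx), mul_comm]
      exact h
    refine ⟨hx, ?_⟩
    rw [hx, map_zero, zero_mul] at h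
    rcases mul_eq_zero.mp h.symm with h | h
    · exact absurd (by simpa using h) hn0
    · simpa using h
  refine ⟨s, n, hn0, ?_⟩
  intro w hw
  have hι0 : ι w ≠ 0 := by
    intro h
    apply hw
    have h1 := hιinj w.1 w.2 (sub_eq_zero.mp h)
    exact Prod.ext h1.1 h1.2
  have hιN : (ι w) ^ N = 1 := by
    have h1 : ((ι w) ^ q) ^ q = ι w := by
      have h2 : (ι w) ^ q = Fr (ι w) := (hFr _).symm
      rw [h2, ← hFr]
      simp only [ι, map_sub, map_mul, AlgHom.commutes]
      rw [hFr, hFr, hθq2]
    have h2 : (ι w) ^ N * ι w = 1 * ι w := by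
      rw [← pow_succ, hN, pow_two, pow_mul, h1, one_mul]
    exact mul_right_cancel₀ hι0 h2
  obtain ⟨i, hi, hiw⟩ := hθ.eq_pow_of_pow_eq_one hιN
  refine ⟨N + 1 - i, ?_⟩
  have h1 := hιMj (N + 1 - i) w
  rw [← hiw, ← pow_add, Nat.sub_add_cancel (by omega), pow_succ, hθN, one_mul] at h1
  set w' := (M s n)^[N + 1 - i] w with hw'
  have h2 : algebraMap F K (w'.1 - 1) * θ = algebraMap F K n * algebraMap F K w'.2 := by
    simp only [ι] at h1
    rw [map_sub, map_one]
    linear_combination h1
  exact (hιinj _ _ h2).2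

end Pool.Agent.Y353.CH
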