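import Mathlib
import Pool.Agent.Y353.CH.Res

set_option autoImplicit false

namespace Pool.Agent.Y353.CH

open Polynomial

/-- numerator form `t x² + s x z - n z²` -/
def numF {R : Type*} [CommRing R] (t s n x z : R) : R := t * x ^ 2 + s * (x * z) - n * z ^ 2

/-- denominator form `x z` -/
def denF {R : Type*} [CommRing R] (x z : R) : R := x * z

variable {F : Type*} [Field F] (s n : F)

/-- the polynomial numerator -/
noncomputable def num (P : F[X] × F[X]) : F[X] := numF X (C s) (C n) P.1 P.2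

/-- the polynomial denominator -/
noncomputable def den (P : F[X] × F[X]) : F[X] := denF P.1 P.2

open scoped Classical in
/-- the exponent of the common factor `X` -/
noncomputable def phi (P : F[X] × F[X]) : ℕ := if P.2.coeff 0 = 0 then 1 else 0

open scoped Classical in
/-- one reduced step of the map `y ↦ X y + s - n / y` in homogeneous coordinates -/
noncomputable def step (P : F[X] × F[X]) : F[X] × F[X] :=
  if P.2.coeff 0 = 0 then ((num s n P).divX, (den P).divX) else (num s n P, den P)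

lemma phi_le (P : F[X] × F[X]) : phi P ≤ 1 := by
  unfold phi; split_ifs <;> simp

lemma eq_X_mul_divX {f : F[X]} (h : f.coeff 0 = 0) : f = X * f.divX := by
  conv_lhs => rw [← X_mul_divX_add f, h]
  rw [C_0, add_zero]

lemma divX_X_mul (f : F[X]) : (X * f).divX = f := by
  ext m
  rw [coeff_divX, coeff_X_mul]

/-- the step at a residue which is the point at infinity -/
lemma step_inf (x r : F[X]) :
    num s n (x, X * r) = X * (x ^ 2 + C s * (x * r) - C n * (X * r ^ 2)) ∧
    den (x, X * r) = X * (x * r) ∧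
    step s n (x, X * r) = (x ^ 2 + C s * (x * r) - C n * (X * r ^ 2), x * r) ∧
    phi (x, X * r) = 1 := by
  have hN : num s n (x, X * r) = X * (x ^ 2 + C s * (x * r) - C n * (X * r ^ 2)) := by
    simp only [num, numF]; ring
  have hD : den (x, X * r) = X * (x * r) := by
    simp only [den, denF]; ring
  have h0 : (X * r : F[X]).coeff 0 = 0 := by simp
  refine ⟨hN, hD, ?_, ?_⟩
  · simp only [step, h0, if_true]
    rw [hN, hD, divX_X_mul, divX_X_mul]
  · simp only [phi, h0, if_true]

lemma step_fin (P : F[X] × F[X]) (h : P.2.coeff 0 ≠ 0) :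
    step s n P = (num s n P, den P) ∧ phi P = 0 := by
  constructor
  · simp only [step, if_neg h]
  · simp only [phi, if_neg h]

lemma step_eqs (P : F[X] × F[X]) :
    num s n P = X ^ phi P * (step s n P).1 ∧ den P = X ^ phi P * (step s n P).2 := by
  by_cases h : P.2.coeff 0 = 0
  · obtain ⟨x, z⟩ := P
    simp only at h
    obtain ⟨r, rfl⟩ : ∃ r, z = X * r := ⟨z.divX, eq_X_mul_divX h⟩
    obtain ⟨h1, h2, h3, h4⟩ := step_inf s n x r
    rw [h3, h4, h1, h2, pow_one]
    exact ⟨rfl, rfl⟩
  · obtain ⟨h1, h2⟩ := step_fin s n P h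
    rw [h1, h2, pow_zero, one_mul, one_mul]
    exact ⟨rfl, rfl⟩

/-- coprimality is preserved -/
lemma step_coprime (hn : n ≠ 0) (P : F[X] × F[X]) (h : IsCoprime P.1 P.2) :
    IsCoprime (step s n P).1 (step s n P).2 := by
  have hCn : ∀ π : F[X], Prime π → ¬ π ∣ C n := by
    intro π hπ hd
    exact hπ.not_unit (isUnit_of_dvd_unit hd (isUnit_C.mpr (isUnit_iff_ne_zero.mpr hn)))
  have hboth : ∀ π : F[X], Prime π → π ∣ P.1 → ¬ π ∣ P.2 := by
    intro π hπ h1 h2
    exact hπ.not_unit (h.isUnit_of_dvd' h1 h2)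
  by_cases hz : P.2.coeff 0 = 0
  · obtain ⟨x, z⟩ := P
    simp only at hz h hboth
    obtain ⟨r, rfl⟩ : ∃ r, z = X * r := ⟨z.divX, eq_X_mul_divX hz⟩
    obtain ⟨-, -, h3, -⟩ := step_inf s n x r
    rw [h3]
    apply isCoprime_of_prime_dvd
    · rintro ⟨e1, e2⟩
      simp only at e1 e2
      rcases mul_eq_zero.mp e2 with h0 | h0
      · rw [h0] at e1 h
        have e1' : C n * (X * r ^ 2) = 0 := by
          have : (0 : F[X]) ^ 2 + C s * (0 * r) - C n * (X * r ^ 2) = 0 := e1
          linear_combination (-1 : F[X]) * this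
        have hr : r = 0 := by
          rcases mul_eq_zero.mp e1' with h' | h'
          · exact absurd (C_eq_zero.mp h') hn
          · rcases mul_eq_zero.mp h' with h' | h'
            · exact absurd h' X_ne_zero
            · exact pow_eq_zero_iff (by norm_num) |>.mp h'
        rw [hr, mul_zero] at h
        exact not_isUnit_zero (isCoprime_zero_right.mp h)
      · rw [h0] at e1 h
        have hx : x ^ 2 = 0 := by
          have : x ^ 2 + C s * (x * 0) - C n * (X * 0 ^ 2) = 0 := e1
          linear_combination this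
        have hx' : x = 0 := pow_eq_zero_iff (by norm_num) |>.mp hx
        rw [hx', mul_zero] at h
        exact not_isUnit_zero (isCoprime_zero_right.mp h)
    · intro π hπ h1 h2
      simp only at h1 h2
      rcases hπ.dvd_or_dvd h2 with hd | hd
      · have h4 : π ∣ C n * (X * r ^ 2) := by
          have e : C n * (X * r ^ 2) = x * (x + C s * r) -
              (x ^ 2 + C s * (x * r) - C n * (X * r ^ 2)) := by ring
          rw [e]
          exact dvd_sub (Dvd.dvd.mul_right hd _) h1
        rcases hπ.dvd_or_dvd h4 with h5 | h5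
        · exact hCn π hπ h5
        · rcases hπ.dvd_or_dvd h5 with h6 | h6
          · exact hboth π hπ hd (Dvd.dvd.mul_right h6 _)
          · exact hboth π hπ hd (Dvd.dvd.mul_left (hπ.dvd_of_dvd_pow h6) _)
      · have h4 : π ∣ x ^ 2 := by
          have e : x ^ 2 = (x ^ 2 + C s * (x * r) - C n * (X * r ^ 2)) -
              r * (C s * x - C n * (X * r)) := by ring
          rw [e]
          exact dvd_sub h1 (Dvd.dvd.mul_right hd _)
        exact hboth π hπ (hπ.dvd_of_dvd_pow h4) (Dvd.dvd.mul_left hd _)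
  · obtain ⟨h1', -⟩ := step_fin s n P hz
    rw [h1']
    have hXz : ¬ (X : F[X]) ∣ P.2 := by rw [X_dvd_iff]; exact hz
    have hz0 : P.2 ≠ 0 := by
      intro h0; rw [h0] at hz; simp at hz
    apply isCoprime_of_prime_dvd
    · rintro ⟨e1, e2⟩
      simp only [num, numF, den, denF] at e1 e2
      rcases mul_eq_zero.mp e2 with h0 | h0
      · rw [h0] at e1
        have e1' : C n * P.2 ^ 2 = 0 := by
          have : X * (0 : F[X]) ^ 2 + C s * (0 * P.2) - C n * P.2 ^ 2 = 0 := e1
          linear_combination (-1 : F[X]) * this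
        rcases mul_eq_zero.mp e1' with h' | h'
        · exact absurd (C_eq_zero.mp h') hn
        · exact hz0 (pow_eq_zero_iff (by norm_num) |>.mp h')
      · exact hz0 h0
    · intro π hπ h1 h2
      simp only [num, numF, den, denF] at h1 h2
      rcases hπ.dvd_or_dvd h2 with hd | hd
      · have h4 : π ∣ C n * P.2 ^ 2 := by
          have e : C n * P.2 ^ 2 = P.1 * (X * P.1 + C s * P.2) -
              (X * P.1 ^ 2 + C s * (P.1 * P.2) - C n * P.2 ^ 2) := by ring
          rw [e]
          exact dvd_sub (Dvd.dvd.mul_right hd _) h1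
        rcases hπ.dvd_or_dvd h4 with h5 | h5
        · exact hCn π hπ h5
        · exact hboth π hπ hd (hπ.dvd_of_dvd_pow h5)
      · have h4 : π ∣ X * P.1 ^ 2 := by
          have e : X * P.1 ^ 2 = (X * P.1 ^ 2 + C s * (P.1 * P.2) - C n * P.2 ^ 2) -
              P.2 * (C s * P.1 - C n * P.2) := by ring
          rw [e]
          exact dvd_sub h1 (Dvd.dvd.mul_right hd _)
        rcases hπ.dvd_or_dvd h4 with h5 | h5
        · have h6 : Associated π (X : F[X]) := hπ.associated_of_dvd prime_X h5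
          exact hXz ((h6.dvd_iff_dvd_left).mp hd)
        · exact hboth π hπ (hπ.dvd_of_dvd_pow h5) hd

/-- the cross difference -/
noncomputable def cross (P Q : F[X] × F[X]) : F[X] := P.1 * Q.2 - Q.1 * P.2

/-- equal exponents: the cross difference loses exactly the exponent -/
lemma cross_step (hn : n ≠ 0) (P Q : F[X] × F[X]) (hP : IsCoprime P.1 P.2)
    (hQ : IsCoprime Q.1 Q.2) (h : phi P = phi Q) :
    ∃ U : F[X], U.coeff 0 ≠ 0 ∧ X ^ phi P * cross (step s n P) (step s n Q) = cross P Q * U := by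
  by_cases hz : P.2.coeff 0 = 0
  · have hz' : Q.2.coeff 0 = 0 := by
      by_contra hne
      simp only [phi, if_pos hz, if_neg hne] at h
      exact one_ne_zero h
    obtain ⟨x, z⟩ := P
    obtain ⟨y, w⟩ := Q
    simp only at hz hz' hP hQ
    obtain ⟨r, rfl⟩ : ∃ r, z = X * r := ⟨z.divX, eq_X_mul_divX hz⟩
    obtain ⟨u, rfl⟩ : ∃ u, w = X * u := ⟨w.divX, eq_X_mul_divX hz'⟩
    obtain ⟨-, -, h3, h4⟩ := step_inf s n x r
    obtain ⟨-, -, h5, -⟩ := step_inf s n y u
    rw [h3, h5, h4]
    refine ⟨x * y + C n * (X * (r * u)), ?_, ?_⟩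
    · have hx : x.coeff 0 ≠ 0 := by
        intro h0
        exact prime_X.not_unit (hP.isUnit_of_dvd' (X_dvd_iff.mpr h0) (dvd_mul_right _ _))
      have hy : y.coeff 0 ≠ 0 := by
        intro h0
        exact prime_X.not_unit (hQ.isUnit_of_dvd' (X_dvd_iff.mpr h0) (dvd_mul_right _ _))
      have : (x * y + C n * (X * (r * u))).coeff 0 = x.coeff 0 * y.coeff 0 := by
        simp [mul_coeff_zero]
      rw [this]
      exact mul_ne_zero hx hy
    · simp only [cross]
      ring
  · have hz' : Q.2.coeff 0 ≠ 0 := by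
      intro hne
      simp only [phi, if_neg hz, if_pos hne] at h
      exact zero_ne_one h
    obtain ⟨h1, h2⟩ := step_fin s n P hz
    obtain ⟨h3, -⟩ := step_fin s n Q hz'
    rw [h1, h2, h3]
    refine ⟨X * (P.1 * Q.1) + C n * (P.2 * Q.2), ?_, ?_⟩
    · have : (X * (P.1 * Q.1) + C n * (P.2 * Q.2)).coeff 0 = n * (P.2.coeff 0 * Q.2.coeff 0) := by
        simp [mul_coeff_zero]
      rw [this]
      exact mul_ne_zero hn (mul_ne_zero hz hz')
    · simp only [cross, num, numF, den, denF, pow_zero]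
      ring

/-- the orbit -/
noncomputable def orb (P : F[X] × F[X]) (m : ℕ) : F[X] × F[X] := (step s n)^[m] P

lemma orb_succ (P : F[X] × F[X]) (m : ℕ) : orb s n P (m + 1) = step s n (orb s n P m) := by
  simp [orb, Function.iterate_succ_apply']

lemma orb_coprime (hn : n ≠ 0) (P : F[X] × F[X]) (h : IsCoprime P.1 P.2) (m : ℕ) :
    IsCoprime (orb s n P m).1 (orb s n P m).2 := by
  induction m with
  | zero => simpa [orb] using h
  | succ m ih =>
    rw [orb_succ]
    exact step_coprime s n hn _ ih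

lemma M_smul (c : F) (w : F × F) : M s n (c * w.1, c * w.2) =
    (c * (M s n w).1, c * (M s n w).2) := by
  simp only [M]
  ext <;> ring

/-- the orbit of residues away from infinity -/
lemma residue_orbit (P : F[X] × F[X]) (m : ℕ) (h : ∀ j, phi (orb s n P (m + j)) = 0) (j : ℕ) :
    ∃ c : F, c ≠ 0 ∧
    ((orb s n P (m + j)).1.coeff 0, (orb s n P (m + j)).2.coeff 0) =
      (c * ((M s n)^[j] ((orb s n P m).1.coeff 0, (orb s n P m).2.coeff 0)).1,
       c * ((M s n)^[j] ((orb s n P m).1.coeff 0, (orb s n P m).2.coeff 0)).2) := by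
  induction j with
  | zero => exact ⟨1, one_ne_zero, by simp⟩
  | succ j ih =>
    obtain ⟨c, hc, hE⟩ := ih
    have hz : (orb s n P (m + j)).2.coeff 0 ≠ 0 := by
      intro h0
      have := h j
      simp only [phi, if_pos h0] at this
      exact one_ne_zero this
    refine ⟨(orb s n P (m + j)).2.coeff 0 * c, mul_ne_zero hz hc, ?_⟩
    rw [Function.iterate_succ_apply', ← add_assoc, orb_succ, (step_fin s n _ hz).1]
    set w := (M s n)^[j] ((orb s n P m).1.coeff 0, (orb s n P m).2.coeff 0) with hw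
    have hE1 : (orb s n P (m + j)).1.coeff 0 = c * w.1 := congrArg Prod.fst hE
    have hE2 : (orb s n P (m + j)).2.coeff 0 = c * w.2 := congrArg Prod.snd hE
    have e1 : ∀ x z : F[X], (X * x ^ 2 + C s * (x * z) - C n * z ^ 2).coeff 0 =
        z.coeff 0 * (s * x.coeff 0 - n * z.coeff 0) := by
      intro x z
      simp [mul_coeff_zero, pow_two]
      ring
    have e2 : ∀ x z : F[X], (x * z).coeff 0 = z.coeff 0 * x.coeff 0 := by
      intro x z
      rw [mul_coeff_zero, mul_comm]
    simp only [num, numF, den, denF, M]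
    rw [e1, e2, hE1, hE2]
    ext <;> simp only [] <;> ring

/-- every orbit visits the point at infinity again and again -/
lemma visits (hM : ∀ w : F × F, w ≠ 0 → ∃ j, ((M s n)^[j] w).2 = 0) (hn : n ≠ 0)
    (P : F[X] × F[X]) (hP : IsCoprime P.1 P.2) (m : ℕ) : ∃ j, phi (orb s n P (m + j)) = 1 := by
  by_contra hcon
  push Not at hcon
  have h0 : ∀ j, phi (orb s n P (m + j)) = 0 := by
    intro j
    have h1 := hcon j
    have h2 := phi_le (orb s n P (m + j))
    omega
  have hw : ((orb s n P m).1.coeff 0, (orb s n P m).2.coeff 0) ≠ (0 : F × F) := by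
    intro h
    have h1 : (orb s n P m).1.coeff 0 = 0 := congrArg Prod.fst h
    have h2 : (orb s n P m).2.coeff 0 = 0 := congrArg Prod.snd h
    exact prime_X.not_unit ((orb_coprime s n hn P hP m).isUnit_of_dvd' (X_dvd_iff.mpr h1)
      (X_dvd_iff.mpr h2))
  obtain ⟨j, hj⟩ := hM _ hw
  obtain ⟨c, -, hE⟩ := residue_orbit s n P m h0 j
  have h3 : (orb s n P (m + j)).2.coeff 0 = 0 := by
    have := congrArg Prod.snd hE
    simp only at this
    rw [this, hj, mul_zero]
  have h4 := h0 j
  simp only [phi, if_pos h3] at h4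
  exact one_ne_zero h4

lemma cross_orb (hn : n ≠ 0) (P : F[X] × F[X]) (hP : IsCoprime P.1 P.2) (m m' : ℕ)
    (h : ∀ j, phi (orb s n P (m + j)) = phi (orb s n P (m' + j))) (j : ℕ) :
    ∃ U : F[X], U.coeff 0 ≠ 0 ∧
      X ^ (∑ i ∈ Finset.range j, phi (orb s n P (m + i))) *
        cross (orb s n P (m + j)) (orb s n P (m' + j)) =
      cross (orb s n P m) (orb s n P m') * U := by
  induction j with
  | zero => exact ⟨1, by simp, by simp⟩
  | succ j ih =>
    obtain ⟨U, hU, hE⟩ := ih
    obtain ⟨V, hV, hE'⟩ := cross_step s n hn _ _ (orb_coprime s n hn P hP (m + j))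
      (orb_coprime s n hn P hP (m' + j)) (h j)
    refine ⟨U * V, ?_, ?_⟩
    · rw [mul_coeff_zero]; exact mul_ne_zero hU hV
    · rw [Finset.sum_range_succ, pow_add, ← add_assoc, ← add_assoc, orb_succ, orb_succ, mul_assoc,
        hE', ← mul_assoc, hE, mul_assoc]

lemma sum_visits (φ : ℕ → ℕ) (h : ∀ n, ∃ j, φ (n + j) = 1) (k : ℕ) :
    ∃ j, k ≤ ∑ i ∈ Finset.range j, φ i := by
  induction k with
  | zero => exact ⟨0, Nat.zero_le _⟩
  | succ k ih =>
    obtain ⟨j, hj⟩ := ih
    obtain ⟨i, hi⟩ := h j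
    refine ⟨j + i + 1, ?_⟩
    rw [Finset.sum_range_succ, hi]
    have : ∑ i ∈ Finset.range j, φ i ≤ ∑ i ∈ Finset.range (j + i), φ i :=
      Finset.sum_le_sum_of_subset (Finset.range_mono (Nat.le_add_right _ _))
    omega

lemma cross_eq_zero (hM : ∀ w : F × F, w ≠ 0 → ∃ j, ((M s n)^[j] w).2 = 0) (hn : n ≠ 0)
    (P : F[X] × F[X]) (hP : IsCoprime P.1 P.2) (m m' : ℕ)
    (h : ∀ j, phi (orb s n P (m + j)) = phi (orb s n P (m' + j))) :
    cross (orb s n P m) (orb s n P m') = 0 := by
  by_contra hne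
  obtain ⟨j, hj⟩ := sum_visits (fun i => phi (orb s n P (m + i))) (by
    intro k
    obtain ⟨j, hj⟩ := visits s n hM hn P hP (m + k)
    exact ⟨j, by simpa [add_assoc] using hj⟩)
    ((cross (orb s n P m) (orb s n P m')).natDegree + 1)
  obtain ⟨U, hU, hE⟩ := cross_orb s n hn P hP m m' h j
  have h1 : (X : F[X]) ^ ((cross (orb s n P m) (orb s n P m')).natDegree + 1) ∣
      cross (orb s n P m) (orb s n P m') := by
    have h2 : (X : F[X]) ^ ((cross (orb s n P m) (orb s n P m')).natDegree + 1) ∣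
        cross (orb s n P m) (orb s n P m') * U := by
      rw [← hE]
      exact Dvd.dvd.mul_right (pow_dvd_pow _ hj) _
    refine prime_X.pow_dvd_of_dvd_mul_right _ ?_ h2
    rw [X_dvd_iff]
    exact hU
  have h2 := natDegree_le_of_dvd h1 hne
  rw [natDegree_X_pow] at h2
  omega

/-! degrees -/

/-- the point has absolute value at least one at infinity -/
def Good (P : F[X] × F[X]) : Prop := P.1 ≠ 0 ∧ P.2 ≠ 0 ∧ P.2.natDegree ≤ P.1.natDegree

lemma natDegree_num (P : F[X] × F[X]) (h : Good P) :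
    (num s n P).natDegree = 2 * P.1.natDegree + 1 ∧ num s n P ≠ 0 := by
  obtain ⟨h1, h2, h3⟩ := h
  have e0 : (X * P.1 ^ 2).natDegree = 2 * P.1.natDegree + 1 := by
    rw [natDegree_mul X_ne_zero (pow_ne_zero 2 h1), natDegree_pow, natDegree_X]
    ring
  have e1 : (C s * (P.1 * P.2) - C n * P.2 ^ 2).natDegree < (X * P.1 ^ 2).natDegree := by
    rw [e0]
    refine lt_of_le_of_lt (natDegree_sub_le _ _) ?_
    rw [max_lt_iff]
    constructor
    · refine lt_of_le_of_lt (natDegree_C_mul_le _ _) ?_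
      refine lt_of_le_of_lt natDegree_mul_le ?_
      omega
    · refine lt_of_le_of_lt (natDegree_C_mul_le _ _) ?_
      rw [natDegree_pow]
      omega
  have e2 : num s n P = X * P.1 ^ 2 + (C s * (P.1 * P.2) - C n * P.2 ^ 2) := by
    simp only [num, numF]; ring
  have e3 : (num s n P).natDegree = 2 * P.1.natDegree + 1 := by
    rw [e2, natDegree_add_eq_left_of_natDegree_lt e1, e0]
  refine ⟨e3, ?_⟩
  intro h0
  rw [h0, natDegree_zero] at e3
  omega

lemma natDegree_den (P : F[X] × F[X]) (h1 : P.1 ≠ 0) (h2 : P.2 ≠ 0) :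
    (den P).natDegree = P.1.natDegree + P.2.natDegree ∧ den P ≠ 0 := by
  simp only [den, denF]
  exact ⟨natDegree_mul h1 h2, mul_ne_zero h1 h2⟩

lemma good_step (P : F[X] × F[X]) (h : Good P) :
    Good (step s n P) ∧ (step s n P).1.natDegree + phi P = 2 * P.1.natDegree + 1 ∧
      (step s n P).2.natDegree + phi P = P.1.natDegree + P.2.natDegree := by
  obtain ⟨hN, hN0⟩ := natDegree_num s n P h
  obtain ⟨hD, hD0⟩ := natDegree_den P h.1 h.2.1
  obtain ⟨e1, e2⟩ := step_eqs s n P
  have hp1 : (step s n P).1 ≠ 0 := by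
    intro h0; rw [h0, mul_zero] at e1; exact hN0 e1
  have hp2 : (step s n P).2 ≠ 0 := by
    intro h0; rw [h0, mul_zero] at e2; exact hD0 e2
  rw [e1, natDegree_mul (pow_ne_zero _ X_ne_zero) hp1, natDegree_X_pow] at hN
  rw [e2, natDegree_mul (pow_ne_zero _ X_ne_zero) hp2, natDegree_X_pow] at hD
  have h3 := h.2.2
  refine ⟨⟨hp1, hp2, by omega⟩, by omega, by omega⟩

lemma good_orb (P : F[X] × F[X]) (h : Good P) (m : ℕ) :
    Good (orb s n P m) ∧ (orb s n P m).1.natDegree + P.2.natDegree =
      (orb s n P m).2.natDegree + P.1.natDegree + m := by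
  induction m with
  | zero => exact ⟨h, by simp [orb]; ring⟩
  | succ m ih =>
    obtain ⟨h1, h2, h3⟩ := good_step s n _ ih.1
    rw [orb_succ]
    refine ⟨h1, ?_⟩
    have := ih.2
    omega

/-- the exponents are not eventually periodic -/
lemma aperiodic (hM : ∀ w : F × F, w ≠ 0 → ∃ j, ((M s n)^[j] w).2 = 0) (hn : n ≠ 0)
    (P : F[X] × F[X]) (hP : IsCoprime P.1 P.2) (hG : Good P) (m m' : ℕ)
    (h : ∀ j, phi (orb s n P (m + j)) = phi (orb s n P (m' + j))) : m = m' := by
  have h1 := cross_eq_zero s n hM hn P hP m m' h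
  obtain ⟨⟨a1, a2, -⟩, a3⟩ := good_orb s n P hG m
  obtain ⟨⟨b1, b2, -⟩, b3⟩ := good_orb s n P hG m'
  have h2 := congrArg natDegree (sub_eq_zero.mp h1)
  rw [natDegree_mul a1 b2, natDegree_mul b1 a2] at h2
  omega

end Pool.Agent.Y353.CH
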