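import Mathlib
import Pool.Agent.Y353.CH.Orbit

set_option autoImplicit false

namespace Pool.Agent.Y353.CH

open Polynomial

variable {F : Type*} [Field F] (s n : F)

/-- after one step every point other than zero and infinity has absolute value at least one at
infinity -/
lemma good_first (hn : n ≠ 0) (P : F[X] × F[X]) (h1 : P.1 ≠ 0) (h2 : P.2 ≠ 0) :
    Good (step s n P) := by
  by_cases h3 : P.2.natDegree ≤ P.1.natDegree
  · exact (good_step s n P ⟨h1, h2, h3⟩).1
  · push Not at h3
    have e0 : (C n * P.2 ^ 2).natDegree = 2 * P.2.natDegree := by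
      rw [natDegree_C_mul hn, natDegree_pow]
    have e1 : (X * P.1 ^ 2 + C s * (P.1 * P.2)).natDegree < (C n * P.2 ^ 2).natDegree := by
      rw [e0]
      refine lt_of_le_of_lt (natDegree_add_le _ _) ?_
      rw [max_lt_iff]
      constructor
      · rw [natDegree_mul X_ne_zero (pow_ne_zero 2 h1), natDegree_pow, natDegree_X]
        omega
      · refine lt_of_le_of_lt (natDegree_C_mul_le _ _) ?_
        refine lt_of_le_of_lt natDegree_mul_le ?_
        omega
    have hN : (num s n P).natDegree = 2 * P.2.natDegree := by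
      simp only [num, numF]
      rw [natDegree_sub_eq_right_of_natDegree_lt e1, e0]
    have hN0 : num s n P ≠ 0 := by
      intro h0
      rw [h0, natDegree_zero] at hN
      omega
    obtain ⟨hD, hD0⟩ := natDegree_den P h1 h2
    obtain ⟨e1, e2⟩ := step_eqs s n P
    have hp1 : (step s n P).1 ≠ 0 := by
      intro h0; rw [h0, mul_zero] at e1; exact hN0 e1
    have hp2 : (step s n P).2 ≠ 0 := by
      intro h0; rw [h0, mul_zero] at e2; exact hD0 e2
    rw [e1, natDegree_mul (pow_ne_zero _ X_ne_zero) hp1, natDegree_X_pow] at hN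
    rw [e2, natDegree_mul (pow_ne_zero _ X_ne_zero) hp2, natDegree_X_pow] at hD
    exact ⟨hp1, hp2, by omega⟩

end Pool.Agent.Y353.CH
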