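import Mathlib

set_option autoImplicit false

namespace Pool.Agent.Y353.CH

open Filter Topology

/-- The limit of `a n / 2 ^ n`, where `a (n + 1) = 2 * a n - φ n` with binary digits `φ n` which
are not eventually periodic, is irrational. -/
theorem exists_limit_irrational (a φ : ℕ → ℕ) (hφ : ∀ n, φ n ≤ 1)
    (ha : ∀ n, a (n + 1) + φ n = 2 * a n)
    (h0 : ∀ n, ∃ j, φ (n + j) = 1)
    (hper : ∀ m n, (∀ j, φ (m + j) = φ (n + j)) → m = n) :
    ∃ L : ℝ, Tendsto (fun n => (a n : ℝ) / 2 ^ n) atTop (𝓝 L) ∧ Irrational L := by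
  have haR : ∀ n, (a (n + 1) : ℝ) = 2 * a n - φ n := by
    intro n
    have := ha n
    have h1 : ((a (n + 1) + φ n : ℕ) : ℝ) = ((2 * a n : ℕ) : ℝ) := by rw [this]
    push_cast at h1
    linarith
  have hφR : ∀ n, (φ n : ℝ) ≤ 1 := fun n => by exact_mod_cast hφ n
  have hφ0 : ∀ n, (0 : ℝ) ≤ φ n := fun n => by positivity
  set r : ℕ → ℝ := fun n => (a n : ℝ) / 2 ^ n with hr
  have hanti : Antitone r := by
    apply antitone_nat_of_succ_le
    intro n
    simp only [hr]
    rw [haR, pow_succ, div_le_div_iff₀ (by positivity) (by positivity)]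
    have h2 : (0 : ℝ) < 2 ^ n := by positivity
    nlinarith [hφ0 n]
  have hmono : Monotone (fun n => ((a n : ℝ) - 1) / 2 ^ n) := by
    apply monotone_nat_of_le_succ
    intro n
    show ((a n : ℝ) - 1) / 2 ^ n ≤ ((a (n + 1) : ℝ) - 1) / 2 ^ (n + 1)
    rw [haR, pow_succ, div_le_div_iff₀ (by positivity) (by positivity)]
    have h2 : (0 : ℝ) < 2 ^ n := by positivity
    nlinarith [hφR n]
  have hbdd : BddBelow (Set.range r) := by
    refine ⟨0, ?_⟩
    rintro y ⟨n, rfl⟩
    simp only [hr]
    positivity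
  have hlim := tendsto_atTop_ciInf hanti hbdd
  set L : ℝ := ⨅ n, r n with hL
  have hlim2 : Tendsto (fun n => ((a n : ℝ) - 1) / 2 ^ n) atTop (𝓝 L) := by
    have hpow : Tendsto (fun n : ℕ => (1 : ℝ) / 2 ^ n) atTop (𝓝 0) := by
      have := tendsto_pow_atTop_nhds_zero_of_lt_one (r := (1 / 2 : ℝ)) (by norm_num) (by norm_num)
      simpa [one_div_pow] using this
    have h3 := hlim.sub hpow
    rw [sub_zero] at h3
    refine h3.congr ?_
    intro n
    simp only [hr]
    rw [← sub_div]
  refine ⟨L, hlim, ?_⟩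
  set T : ℕ → ℝ := fun m => (a m : ℝ) - 2 ^ m * L with hT
  have hT0 : ∀ m, 0 ≤ T m := by
    intro m
    have h1 : L ≤ r m := ciInf_le hbdd m
    simp only [hr] at h1
    rw [le_div_iff₀ (by positivity)] at h1
    simp only [hT]
    linarith
  have hT1 : ∀ m, T m ≤ 1 := by
    intro m
    have h1 : ((a m : ℝ) - 1) / 2 ^ m ≤ L := hmono.ge_of_tendsto hlim2 m
    rw [div_le_iff₀ (by positivity)] at h1
    simp only [hT]
    linarith
  have hTs : ∀ m, T (m + 1) = 2 * T m - φ m := by
    intro m
    simp only [hT, haR]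
    rw [pow_succ]; ring
  have hTpos : ∀ m, 0 < T m := by
    intro m
    rcases (hT0 m).lt_or_eq with h | h
    · exact h
    · exfalso
      have hall : ∀ j, T (m + j) = 0 := by
        intro j
        induction j with
        | zero => exact h.symm
        | succ j ih =>
          have h1 := hTs (m + j)
          rw [ih] at h1
          have h2 := hT0 (m + j + 1)
          have h3 := hφ0 (m + j)
          rw [← add_assoc]
          linarith
      obtain ⟨j, hj⟩ := h0 m
      have h1 := hTs (m + j)
      rw [hall j, hj] at h1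
      have h2 := hT0 (m + j + 1)
      rw [h1] at h2
      norm_num at h2
  rintro ⟨q, hq⟩
  have hint : ∀ m, ∃ z : ℤ, (z : ℝ) = q.den * T m := by
    intro m
    refine ⟨q.den * a m - 2 ^ m * q.num, ?_⟩
    have hq' : (q : ℝ) * q.den = q.num := by exact_mod_cast Rat.mul_den_eq_num q
    simp only [hT]
    rw [← hq]
    push_cast
    rw [← hq']
    ring
  choose z hz using hint
  have hzb : ∀ m, z m ∈ Set.Icc (0 : ℤ) q.den := by
    intro m
    have hd : (0 : ℝ) < q.den := by exact_mod_cast q.den_pos
    have h1 := hT0 m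
    have h2 := hT1 m
    constructor
    · have : (0 : ℝ) ≤ z m := by rw [hz]; positivity
      exact_mod_cast this
    · have : (z m : ℝ) ≤ q.den := by rw [hz]; nlinarith
      exact_mod_cast this
  obtain ⟨m, -, n, -, hmn, hzmn⟩ :=
    Set.infinite_univ.exists_ne_map_eq_of_mapsTo (f := z) (s := Set.univ)
      (t := Set.Icc (0 : ℤ) q.den) (fun m _ => hzb m) (Set.finite_Icc _ _)
  have hTmn : T m = T n := by
    have hd : (q.den : ℝ) ≠ 0 := by exact_mod_cast q.den_ne_zero
    have : (q.den : ℝ) * T m = q.den * T n := by rw [← hz, ← hz, hzmn]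
    exact mul_left_cancel₀ hd this
  have hstep : ∀ u w, T u = T w → φ u = φ w := by
    intro u w huw
    have e1 := hTs u
    have e2 := hTs w
    have p1 := hTpos (u + 1)
    have p2 := hTpos (w + 1)
    have q1 := hT1 (u + 1)
    have q2 := hT1 (w + 1)
    have h1 : (φ u : ℝ) < φ w + 1 := by linarith
    have h2 : (φ w : ℝ) < φ u + 1 := by linarith
    have h1' : φ u < φ w + 1 := by exact_mod_cast h1
    have h2' : φ w < φ u + 1 := by exact_mod_cast h2
    omega
  have hall : ∀ j, T (m + j) = T (n + j) := by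
    intro j
    induction j with
    | zero => simpa using hTmn
    | succ j ih =>
      have e1 := hTs (m + j)
      have e2 := hTs (n + j)
      have hphi := hstep _ _ ih
      rw [← add_assoc, ← add_assoc, e1, e2, ih, hphi]
  exact hmn (hper m n (fun j => hstep _ _ (hall j)))

end Pool.Agent.Y353.CH
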