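import Mathlib
import Pool.Agent.Y353.CH.Orbit

set_option autoImplicit false
set_option linter.unusedSectionVars false
set_option linter.unusedVariables false
set_option linter.style.haveILetI false

/-! The places of the rational function field `k(X)` (after `Pool.Agent.Helper259.Orbit2Main`). -/

namespace Pool.Agent.Y353.CH

open Filter Topology
open WithZero

section places

variable {k : Type*} [Field k]

variable (v : Valuation (RatFunc k) (WithZero (Multiplicative ℤ)))
  (hs : Function.Surjective v) (hc : ∀ c : k, c ≠ 0 → v (RatFunc.C c) = 1)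

include hc in
lemma triv : v.IsTrivialOn k := ⟨fun a ha => by
  rw [RatFunc.algebraMap_eq_C]; exact hc a ha⟩

include hc in
lemma v_poly_le (hX : v RatFunc.X ≤ 1) (f : Polynomial k) :
    v (algebraMap (Polynomial k) (RatFunc k) f) ≤ 1 := by
  haveI := triv v hc
  have := Polynomial.valuation_le_one_of_valuation_X_le_one k hX f
  rwa [RatFunc.coePolynomial_eq_algebraMap] at this

include hc in
lemma v_unit (hX : v RatFunc.X < 1) (f : Polynomial k) (hf : f.coeff 0 ≠ 0) :
    v (algebraMap (Polynomial k) (RatFunc k) f) = 1 := by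
  have e : f = Polynomial.X * f.divX + Polynomial.C (f.coeff 0) := (Polynomial.X_mul_divX_add f).symm
  rw [e, map_add, map_mul, RatFunc.algebraMap_X, RatFunc.algebraMap_C]
  have h1 : v (RatFunc.X * algebraMap (Polynomial k) (RatFunc k) f.divX) < 1 := by
    rw [map_mul]
    exact mul_lt_one_of_lt_of_le hX (v_poly_le v hc hX.le _)
  have h2 : v (RatFunc.C (f.coeff 0)) = 1 := hc _ hf
  rw [← h2] at h1
  rw [Valuation.map_add_eq_of_lt_right _ h1, h2]

include hc in
lemma v_poly_pow (hX : v RatFunc.X < 1) (f : Polynomial k) (hf : f ≠ 0) :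
    ∃ m : ℕ, (∀ w : Valuation (RatFunc k) (WithZero (Multiplicative ℤ)),
      (∀ c : k, c ≠ 0 → w (RatFunc.C c) = 1) → w RatFunc.X < 1 →
      w (algebraMap (Polynomial k) (RatFunc k) f) = w RatFunc.X ^ m) := by
  obtain ⟨m, g, hg, hfg⟩ := WfDvdMonoid.max_power_factor hf
    (Polynomial.prime_X (R := k)).irreducible
  refine ⟨m, fun w hwc hwX => ?_⟩
  rw [hfg, map_mul, map_pow, RatFunc.algebraMap_X, map_mul, map_pow,
    v_unit w hwc hwX g (fun h => hg (Polynomial.X_dvd_iff.mpr h)), mul_one]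

include hc in
lemma v_zpow (hX : v RatFunc.X < 1) (f : RatFunc k) (hf : f ≠ 0) :
    ∃ m : ℤ, (∀ w : Valuation (RatFunc k) (WithZero (Multiplicative ℤ)),
      (∀ c : k, c ≠ 0 → w (RatFunc.C c) = 1) → w RatFunc.X < 1 →
      w f = w RatFunc.X ^ m) := by
  induction f using RatFunc.induction_on with
  | f p q hq =>
    have hp : p ≠ 0 := by rintro rfl; simp at hf
    obtain ⟨m, hm⟩ := v_poly_pow v hc hX p hp
    obtain ⟨n, hn⟩ := v_poly_pow v hc hX q hq
    refine ⟨(m : ℤ) - n, fun w hwc hwX => ?_⟩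
    have h0 : w RatFunc.X ≠ 0 := by
      rw [Valuation.ne_zero_iff]; exact RatFunc.X_ne_zero
    rw [map_div₀, hm w hwc hwX, hn w hwc hwX, zpow_sub₀ h0, zpow_natCast, zpow_natCast]

include hs hc in
lemma v_X_lt (hX : v RatFunc.X < 1) : v RatFunc.X = exp (-1 : ℤ) := by
  have h0 : v RatFunc.X ≠ 0 := by
    rw [Valuation.ne_zero_iff]; exact RatFunc.X_ne_zero
  obtain ⟨j, hj⟩ : ∃ j : ℤ, v RatFunc.X = exp j := ⟨log (v RatFunc.X), (exp_log h0).symm⟩
  obtain ⟨f, hf⟩ := hs (exp (1 : ℤ))
  have hf0 : f ≠ 0 := by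
    rintro rfl; rw [map_zero] at hf; exact (exp_ne_zero hf.symm)
  obtain ⟨m, hm⟩ := v_zpow v hc hX f hf0
  have h1 := hm v hc hX
  rw [hf, hj, ← exp_zsmul] at h1
  have h2 : (1 : ℤ) = m • j := exp_injective h1
  have h3 : j < 0 := by
    rw [hj, ← exp_zero] at hX
    exact exp_lt_exp.mp hX
  rw [smul_eq_mul] at h2
  have h4 : j = -1 := by
    rcases Int.eq_one_or_neg_one_of_mul_eq_one' h2.symm with h | h
    · omega
    · omega
  rw [hj, h4]

include hs hc in
lemma v_X_gt (hX : 1 < v RatFunc.X) : v RatFunc.X = exp (1 : ℤ) := by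
  haveI := triv v hc
  have h0 : v RatFunc.X ≠ 0 := by
    rw [Valuation.ne_zero_iff]; exact RatFunc.X_ne_zero
  obtain ⟨j, hj⟩ : ∃ j : ℤ, v RatFunc.X = exp j := ⟨log (v RatFunc.X), (exp_log h0).symm⟩
  obtain ⟨f, hf⟩ := hs (exp (1 : ℤ))
  have hf0 : f ≠ 0 := by
    rintro rfl; rw [map_zero] at hf; exact (exp_ne_zero hf.symm)
  have h1 := RatFunc.valuation_eq_valuation_X_zpow_intDegree_of_one_lt_valuation_X (v := v) hX hf0
  rw [hf, hj, ← exp_zsmul] at h1
  have h2 : (1 : ℤ) = f.intDegree • j := exp_injective h1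
  have h3 : 0 < j := by
    rw [hj, ← exp_zero] at hX
    exact exp_lt_exp.mp hX
  rw [smul_eq_mul] at h2
  have h4 : j = 1 := by
    rcases Int.eq_one_or_neg_one_of_mul_eq_one' h2.symm with h | h
    · omega
    · omega
  rw [hj, h4]

lemma unique_lt (v w : Valuation (RatFunc k) (WithZero (Multiplicative ℤ)))
    (hs : Function.Surjective v) (hc : ∀ c : k, c ≠ 0 → v (RatFunc.C c) = 1)
    (hs' : Function.Surjective w) (hc' : ∀ c : k, c ≠ 0 → w (RatFunc.C c) = 1)
    (hX : v RatFunc.X < 1) (hX' : w RatFunc.X < 1) : v = w := by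
  ext f
  by_cases hf : f = 0
  · simp [hf]
  · obtain ⟨m, hm⟩ := v_zpow v hc hX f hf
    rw [hm v hc hX, hm w hc' hX', v_X_lt v hs hc hX, v_X_lt w hs' hc' hX']

lemma unique_gt (v w : Valuation (RatFunc k) (WithZero (Multiplicative ℤ)))
    (hs : Function.Surjective v) (hc : ∀ c : k, c ≠ 0 → v (RatFunc.C c) = 1)
    (hs' : Function.Surjective w) (hc' : ∀ c : k, c ≠ 0 → w (RatFunc.C c) = 1)
    (hX : 1 < v RatFunc.X) (hX' : 1 < w RatFunc.X) : v = w := by
  haveI := triv v hc
  haveI := triv w hc'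
  ext f
  by_cases hf : f = 0
  · simp [hf]
  · rw [RatFunc.valuation_eq_valuation_X_zpow_intDegree_of_one_lt_valuation_X (v := v) hX hf,
      RatFunc.valuation_eq_valuation_X_zpow_intDegree_of_one_lt_valuation_X (v := w) hX' hf,
      v_X_gt v hs hc hX, v_X_gt w hs' hc' hX']

/-- the place above `X = 0` -/
lemma exists_v0 : ∃ v : Valuation (RatFunc k) (WithZero (Multiplicative ℤ)),
    Function.Surjective v ∧ (∀ c : k, c ≠ 0 → v (RatFunc.C c) = 1) ∧ v RatFunc.X < 1 := by
  refine ⟨(Polynomial.idealX k).valuation (RatFunc k),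
    IsDedekindDomain.HeightOneSpectrum.valuation_surjective _ _, ?_, ?_⟩
  · intro c hcne
    rw [← RatFunc.algebraMap_C, IsDedekindDomain.HeightOneSpectrum.valuation_of_algebraMap]
    rw [IsDedekindDomain.HeightOneSpectrum.intValuation_eq_one_iff]
    rw [Polynomial.idealX_span, Ideal.mem_span_singleton, Polynomial.X_dvd_iff]
    simpa using hcne
  · rw [Polynomial.valuation_X_eq_neg_one, ← exp_zero]
    exact exp_lt_exp.mpr (by norm_num)

lemma exists_vinf : ∃ v : Valuation (RatFunc k) (WithZero (Multiplicative ℤ)),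
    Function.Surjective v ∧ (∀ c : k, c ≠ 0 → v (RatFunc.C c) = 1) ∧ 1 < v RatFunc.X := by
  classical
  refine ⟨RatFunc.inftyValuation k, ?_, ?_, ?_⟩
  · intro x
    by_cases hx : x = 0
    · exact ⟨0, by rw [map_zero, hx]⟩
    · exact ⟨RatFunc.X ^ (log x), by rw [RatFunc.inftyValuation.X_zpow, exp_log hx]⟩
  · intro c hcne
    exact RatFunc.inftyValuation.C _ hcne
  · rw [RatFunc.inftyValuation.X, ← exp_zero]
    exact exp_lt_exp.mpr (by norm_num)


lemma log_max (a b : WithZero (Multiplicative ℤ)) (m : ℤ) (ha : a ≤ exp m) (hb : b ≤ exp m)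
    (h : a = exp m ∨ b = exp m) : log (max a b) = m := by
  have : max a b = exp m := by
    apply le_antisymm (max_le ha hb)
    rcases h with h | h
    · rw [← h]; exact le_max_left _ _
    · rw [← h]; exact le_max_right _ _
  rw [this, log_exp]

end places

section height

variable {F : Type*} [Field F] {k : Type*} [Field k] [Algebra F k]

/-- embedding of `F[X]` in `k(X)` -/
noncomputable def emb : Polynomial F →+* RatFunc k :=
  (algebraMap (Polynomial k) (RatFunc k)).comp (Polynomial.mapRingHom (algebraMap F k))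

lemma emb_X : emb (F := F) (k := k) Polynomial.X = RatFunc.X := by
  simp [emb, RatFunc.algebraMap_X]

lemma emb_C (a : F) : emb (F := F) (k := k) (Polynomial.C a) = RatFunc.C (algebraMap F k a) := by
  simp [emb, RatFunc.algebraMap_C]

lemma emb_apply (f : Polynomial F) :
    emb (k := k) f =
      algebraMap (Polynomial k) (RatFunc k) (Polynomial.map (algebraMap F k) f) := rfl

lemma emb_ne_zero {f : Polynomial F} (hf : f ≠ 0) : emb (k := k) f ≠ 0 := by
  rw [emb_apply]
  simp only [ne_eq, FaithfulSMul.algebraMap_eq_zero_iff]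
  rw [Polynomial.map_eq_zero]
  exact hf

/-- homogeneous coordinates -/
noncomputable def vec (k : Type*) [Field k] [Algebra F k] (e : ℕ)
    (P : Polynomial F × Polynomial F) : Fin 2 → RatFunc k :=
  ![emb (Polynomial.X ^ e * P.1), emb (Polynomial.X ^ e * P.2)]

lemma coprime_place (v : Valuation (RatFunc k) (WithZero (Multiplicative ℤ)))
    (hle : ∀ f : Polynomial F, v (emb (k := k) f) ≤ 1) (p q : Polynomial F) (h : IsCoprime p q) :
    v (emb (k := k) p) = 1 ∨ v (emb (k := k) q) = 1 := by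
  by_contra hcon
  push Not at hcon
  have h1 : v (emb (k := k) p) < 1 := lt_of_le_of_ne (hle p) hcon.1
  have h2 : v (emb (k := k) q) < 1 := lt_of_le_of_ne (hle q) hcon.2
  obtain ⟨a, b, hab⟩ := h
  have h3 : v (emb (k := k) (a * p + b * q)) < 1 := by
    rw [map_add, map_mul, map_mul]
    refine lt_of_le_of_lt (v.map_add _ _) (max_lt ?_ ?_)
    · rw [map_mul, mul_comm]
      exact mul_lt_one_of_lt_of_le h1 (hle a)
    · rw [map_mul, mul_comm]
      exact mul_lt_one_of_lt_of_le h2 (hle b)
  rw [hab, map_one, map_one] at h3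
  exact lt_irrefl _ h3

/-- contribution of the place above `X = 0` -/
lemma loc_zero (v : Valuation (RatFunc k) (WithZero (Multiplicative ℤ)))
    (hs : Function.Surjective v) (hc : ∀ c : k, c ≠ 0 → v (RatFunc.C c) = 1)
    (hX : v RatFunc.X < 1) (e : ℕ) (P : Polynomial F × Polynomial F) (hP : IsCoprime P.1 P.2) :
    log (max (v (vec k e P 0)) (v (vec k e P 1))) = -(e : ℤ) := by
  have hvX := v_X_lt v hs hc hX
  have hpow : v (emb (F := F) (k := k) (Polynomial.X ^ e)) = exp (-(e : ℤ)) := by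
    rw [map_pow, emb_X, map_pow, hvX, ← exp_nsmul]
    congr 1
    simp
  have hle : ∀ f : Polynomial F, v (emb (k := k) f) ≤ 1 := by
    intro f
    rw [emb_apply]
    exact v_poly_le v hc hX.le _
  have h0 : v (vec k e P 0) = exp (-(e : ℤ)) * v (emb (k := k) P.1) := by
    show v (emb (k := k) (Polynomial.X ^ e * P.1)) = _
    rw [map_mul, map_mul, hpow]
  have h1 : v (vec k e P 1) = exp (-(e : ℤ)) * v (emb (k := k) P.2) := by
    show v (emb (k := k) (Polynomial.X ^ e * P.2)) = _
    rw [map_mul, map_mul, hpow]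
  rw [h0, h1]
  apply log_max
  · exact mul_le_of_le_one_right' (hle _)
  · exact mul_le_of_le_one_right' (hle _)
  · rcases coprime_place v hle P.1 P.2 hP with h | h
    · left; rw [h, mul_one]
    · right; rw [h, mul_one]

/-- contribution of the places other than `0` and infinity -/
lemma loc_other (v : Valuation (RatFunc k) (WithZero (Multiplicative ℤ)))
    (hc : ∀ c : k, c ≠ 0 → v (RatFunc.C c) = 1)
    (hX : v RatFunc.X = 1) (e : ℕ) (P : Polynomial F × Polynomial F) (hP : IsCoprime P.1 P.2) :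
    log (max (v (vec k e P 0)) (v (vec k e P 1))) = 0 := by
  have hpow : v (emb (F := F) (k := k) (Polynomial.X ^ e)) = 1 := by
    rw [map_pow, emb_X, map_pow, hX, one_pow]
  have hle : ∀ f : Polynomial F, v (emb (k := k) f) ≤ 1 := by
    intro f
    rw [emb_apply]
    exact v_poly_le v hc hX.le _
  have h0 : v (vec k e P 0) = v (emb (k := k) P.1) := by
    show v (emb (k := k) (Polynomial.X ^ e * P.1)) = _
    rw [map_mul, map_mul, hpow, one_mul]
  have h1 : v (vec k e P 1) = v (emb (k := k) P.2) := by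
    show v (emb (k := k) (Polynomial.X ^ e * P.2)) = _
    rw [map_mul, map_mul, hpow, one_mul]
  rw [h0, h1]
  apply log_max
  · rw [exp_zero]; exact hle _
  · rw [exp_zero]; exact hle _
  · rw [exp_zero]; exact coprime_place v hle P.1 P.2 hP

/-- contribution of the place at infinity -/
lemma loc_infty (v : Valuation (RatFunc k) (WithZero (Multiplicative ℤ)))
    (hs : Function.Surjective v) (hc : ∀ c : k, c ≠ 0 → v (RatFunc.C c) = 1)
    (hX : 1 < v RatFunc.X) (e : ℕ) (P : Polynomial F × Polynomial F) (hG : Good P) :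
    log (max (v (vec k e P 0)) (v (vec k e P 1))) = (e : ℤ) + P.1.natDegree := by
  haveI := triv v hc
  have hvX := v_X_gt v hs hc hX
  have hval : ∀ f : Polynomial F, f ≠ 0 → v (emb (k := k) f) = exp (f.natDegree : ℤ) := by
    intro f hf
    have hf' : Polynomial.map (algebraMap F k) f ≠ 0 := by
      rw [Ne, Polynomial.map_eq_zero]; exact hf
    have := Polynomial.valuation_eq_valuation_X_pow_natDegree_of_one_lt_valuation_X k hX hf'
    rw [RatFunc.coePolynomial_eq_algebraMap] at this
    rw [emb_apply, this, hvX, ← exp_nsmul, Polynomial.natDegree_map]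
    congr 1
    simp
  obtain ⟨g1, g2, g3⟩ := hG
  have hXe : (Polynomial.X ^ e : Polynomial F) ≠ 0 := pow_ne_zero _ Polynomial.X_ne_zero
  have h0 : v (vec k e P 0) = exp ((e : ℤ) + P.1.natDegree) := by
    show v (emb (k := k) (Polynomial.X ^ e * P.1)) = _
    rw [hval _ (mul_ne_zero hXe g1), Polynomial.natDegree_mul hXe g1, Polynomial.natDegree_X_pow]
    push_cast
    rfl
  have h1 : v (vec k e P 1) ≤ exp ((e : ℤ) + P.1.natDegree) := by
    show v (emb (k := k) (Polynomial.X ^ e * P.2)) ≤ _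
    rw [hval _ (mul_ne_zero hXe g2), Polynomial.natDegree_mul hXe g2, Polynomial.natDegree_X_pow]
    apply exp_le_exp.mpr
    have : (P.2.natDegree : ℤ) ≤ P.1.natDegree := by exact_mod_cast g3
    push_cast
    linarith
  exact log_max _ _ _ h0.le h1 (Or.inl h0)

/-- the height of a point in terms of coprime coordinates -/
lemma height_vec (e : ℕ) (P : Polynomial F × Polynomial F) (hP : IsCoprime P.1 P.2)
    (hG : Good P) :
    (∑ᶠ v : {v : Valuation (RatFunc k) (WithZero (Multiplicative ℤ)) //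
      Function.Surjective v ∧ ∀ c : k, c ≠ 0 → v (RatFunc.C c) = 1},
      ((log (max (v.1 (vec k e P 0)) (v.1 (vec k e P 1))) : ℤ) : ℝ)) = P.1.natDegree := by
  classical
  obtain ⟨v0, hs0, hc0, hX0⟩ := exists_v0 (k := k)
  obtain ⟨v1, hs1, hc1, hX1⟩ := exists_vinf (k := k)
  set A : {v : Valuation (RatFunc k) (WithZero (Multiplicative ℤ)) //
      Function.Surjective v ∧ ∀ c : k, c ≠ 0 → v (RatFunc.C c) = 1} := ⟨v0, hs0, hc0⟩ with hA
  set B : {v : Valuation (RatFunc k) (WithZero (Multiplicative ℤ)) //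
      Function.Surjective v ∧ ∀ c : k, c ≠ 0 → v (RatFunc.C c) = 1} := ⟨v1, hs1, hc1⟩ with hB
  have hAB : A ≠ B := by
    intro h
    have : v0 = v1 := congrArg Subtype.val h
    rw [this] at hX0
    exact lt_asymm hX0 hX1
  rw [finsum_eq_sum_of_support_subset (s := {A, B})]
  · rw [Finset.sum_pair hAB]
    simp only [hA, hB]
    rw [loc_zero v0 hs0 hc0 hX0 e P hP, loc_infty v1 hs1 hc1 hX1 e P hG]
    push_cast
    ring
  · intro w hw
    rw [Function.mem_support] at hw
    rcases lt_trichotomy (w.1 RatFunc.X) 1 with h | h | h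
    · have : w = A := Subtype.ext (unique_lt w.1 v0 w.2.1 w.2.2 hs0 hc0 h hX0)
      simp [this]
    · exfalso
      apply hw
      rw [loc_other w.1 w.2.2 h e P hP]
      simp
    · have : w = B := Subtype.ext (unique_gt w.1 v1 w.2.1 w.2.2 hs1 hc1 h hX1)
      simp [this]

end height

end Pool.Agent.Y353.CH
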