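import Mathlib
import Pool.Agent.Y353.CH.Irr
import Pool.Agent.Y353.CH.Val
import Pool.Agent.Y353.CH.First

set_option autoImplicit false

namespace Pool.Agent.Y353.CH

open Filter Topology Polynomial

/-- The limit of `a n / 2 ^ n`, where `a (n + 1) = 2 * a n - φ n` with binary digits `φ n`. -/
theorem exists_limit (a φ : ℕ → ℕ) (hφ : ∀ n, φ n ≤ 1)
    (ha : ∀ n, a (n + 1) + φ n = 2 * a n)
    (hper : (∀ n, ∃ j, φ (n + j) = 1) → ∀ m n, (∀ j, φ (m + j) = φ (n + j)) → m = n) :
    ∃ L : ℝ, Tendsto (fun n => (a n : ℝ) / 2 ^ n) atTop (𝓝 L) ∧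
      ((∀ n, ∃ j, φ (n + j) = 1) → Irrational L) ∧
      ((¬ ∀ n, ∃ j, φ (n + j) = 1) → ∃ q : ℚ, (q : ℝ) = L) := by
  by_cases h0 : ∀ n, ∃ j, φ (n + j) = 1
  · obtain ⟨L, hL, hirr⟩ := exists_limit_irrational a φ hφ ha h0 (hper h0)
    exact ⟨L, hL, fun _ => hirr, fun h => absurd h0 h⟩
  · have h0' := h0
    push Not at h0'
    obtain ⟨N, hN⟩ := h0'
    have hz : ∀ j, φ (N + j) = 0 := by
      intro j
      have h1 := hN j
      have h2 := hφ (N + j)
      omega
    have hj : ∀ j, a (N + j) = 2 ^ j * a N := by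
      intro j
      induction j with
      | zero => simp
      | succ j ih =>
        have h1 := ha (N + j)
        rw [hz j, ih] at h1
        rw [← add_assoc, pow_succ]
        linarith
    refine ⟨(a N : ℝ) / 2 ^ N, ?_, fun h => absurd h h0, fun _ => ⟨(a N : ℚ) / 2 ^ N, by push_cast; rfl⟩⟩
    rw [← tendsto_add_atTop_iff_nat N]
    refine tendsto_const_nhds.congr ?_
    intro j
    rw [add_comm j N, hj j, pow_add]
    push_cast
    have h1 : (2 : ℝ) ^ N ≠ 0 := by positivity
    have h2 : (2 : ℝ) ^ j ≠ 0 := by positivity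
    field_simp

variable {F : Type*} [Field F] (s n : F)

lemma cross_eq_zero' (hn : n ≠ 0) (P : F[X] × F[X]) (hP : IsCoprime P.1 P.2)
    (hv : ∀ m, ∃ j, phi (orb s n P (m + j)) = 1) (m m' : ℕ)
    (h : ∀ j, phi (orb s n P (m + j)) = phi (orb s n P (m' + j))) :
    cross (orb s n P m) (orb s n P m') = 0 := by
  by_contra hne
  obtain ⟨j, hj⟩ := sum_visits (fun i => phi (orb s n P (m + i))) (by
    intro k
    obtain ⟨j, hj⟩ := hv (m + k)
    exact ⟨j, by simpa [add_assoc] using hj⟩)
    ((cross (orb s n P m) (orb s n P m')).natDegree + 1)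
  obtain ⟨U, hU, hE⟩ := cross_orb s n hn P hP m m' h j
  have h1 : (X : F[X]) ^ ((cross (orb s n P m) (orb s n P m')).natDegree + 1) ∣
      cross (orb s n P m) (orb s n P m') := by
    have h2 : (X : F[X]) ^ ((cross (orb s n P m) (orb s n P m')).natDegree + 1) ∣
        cross (orb s n P m) (orb s n P m') * U := by
      rw [← hE]
      exact Dvd.dvd.mul_right (pow_dvd_pow _ hj) _
    refine prime_X.pow_dvd_of_dvd_mul_right _ ?_ h2
    rw [X_dvd_iff]
    exact hU
  have h2 := natDegree_le_of_dvd h1 hne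
  rw [natDegree_X_pow] at h2
  omega

lemma aperiodic' (hn : n ≠ 0) (P : F[X] × F[X]) (hP : IsCoprime P.1 P.2) (hG : Good P)
    (hv : ∀ m, ∃ j, phi (orb s n P (m + j)) = 1) (m m' : ℕ)
    (h : ∀ j, phi (orb s n P (m + j)) = phi (orb s n P (m' + j))) : m = m' := by
  have h1 := cross_eq_zero' s n hn P hP hv m m' h
  obtain ⟨⟨a1, a2, -⟩, a3⟩ := good_orb s n P hG m
  obtain ⟨⟨b1, b2, -⟩, b3⟩ := good_orb s n P hG m'
  have h2 := congrArg natDegree (sub_eq_zero.mp h1)
  rw [natDegree_mul a1 b2, natDegree_mul b1 a2] at h2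
  omega

lemma orb_shift (P : F[X] × F[X]) (m : ℕ) : orb s n (step s n P) m = orb s n P (m + 1) := by
  simp [orb, Function.iterate_succ_apply]

/-- the limit of the normalised degrees: it is irrational if and only if the orbit visits the point
at infinity modulo `X` infinitely often -/
theorem degree_limit (hn : n ≠ 0) (P : F[X] × F[X]) (hP : IsCoprime P.1 P.2) (h1 : P.1 ≠ 0)
    (h2 : P.2 ≠ 0) :
    ∃ L : ℝ, Tendsto (fun m => ((orb s n (step s n P) m).1.natDegree : ℝ) / 2 ^ (m + 1)) atTop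
      (𝓝 L) ∧ (Irrational L ↔ ∀ m, ∃ j, phi (orb s n P (m + j)) = 1) ∧
      (¬ Irrational L ↔ ¬ ∀ m, ∃ j, phi (orb s n P (m + j)) = 1) := by
  have hPG : Good (step s n P) := good_first s n hn P h1 h2
  have hPc := step_coprime s n hn P hP
  obtain ⟨L, hL, hi, hr⟩ := exists_limit
    (fun m => (orb s n (step s n P) m).1.natDegree + 1) (fun m => phi (orb s n (step s n P) m))
    (fun m => phi_le _)
    (by
      intro m
      have h1 := (good_step s n _ (good_orb s n _ hPG m).1).2.1
      rw [← orb_succ] at h1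
      show (orb s n (step s n P) (m + 1)).1.natDegree + 1 + phi (orb s n (step s n P) m) =
        2 * ((orb s n (step s n P) m).1.natDegree + 1)
      omega)
    (fun hv m m' h => aperiodic' s n hn _ hPc hPG hv m m' h)
  have hshift : (∀ m, ∃ j, phi (orb s n (step s n P) (m + j)) = 1) ↔
      ∀ m, ∃ j, phi (orb s n P (m + j)) = 1 := by
    constructor
    · intro h m
      obtain ⟨j, hj⟩ := h m
      rw [orb_shift] at hj
      exact ⟨j + 1, by simpa [add_assoc] using hj⟩
    · intro h m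
      obtain ⟨j, hj⟩ := h (m + 1)
      refine ⟨j, ?_⟩
      rw [orb_shift]
      have e : m + j + 1 = m + 1 + j := by ring
      rw [e]; exact hj
  have hI : Irrational (L / 2) ↔ ∀ m, ∃ j, phi (orb s n P (m + j)) = 1 := by
    rw [← hshift]
    constructor
    · intro h
      by_contra hcon
      obtain ⟨q, hq⟩ := hr hcon
      apply h
      exact ⟨q / 2, by push_cast; rw [hq]⟩
    · intro h
      have := (hi h).div_ratCast (q := 2) (by norm_num)
      simpa using this
  refine ⟨L / 2, ?_, hI, not_congr hI⟩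
  have hpow : Tendsto (fun m : ℕ => (1 : ℝ) / 2 ^ m) atTop (𝓝 0) := by
    have := tendsto_pow_atTop_nhds_zero_of_lt_one (r := (1 / 2 : ℝ)) (by norm_num) (by norm_num)
    simpa [one_div_pow] using this
  have h3 := (hL.sub hpow).div_const 2
  rw [sub_zero] at h3
  refine h3.congr ?_
  intro m
  have h3 : (2 : ℝ) ^ m ≠ 0 := by positivity
  rw [pow_succ]
  push_cast
  field_simp
  ring

end Pool.Agent.Y353.CH
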