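import Mathlib
import Pool.Agent.Y353.CH.Crit

set_option autoImplicit false
set_option linter.style.haveILetI false

namespace Pool.Agent.Y353.CH

open Filter Topology
open WithZero

variable {F : Type*} [Field F] {k : Type*} [Field k] [Algebra F k]

lemma vec_val (v : Valuation (RatFunc k) (WithZero (Multiplicative ℤ)))
    (hs : Function.Surjective v) (hc : ∀ c : k, c ≠ 0 → v (RatFunc.C c) = 1)
    (hX : v RatFunc.X < 1) (e : ℕ) (P : Polynomial F × Polynomial F) :
    v (vec k e P 0) = exp (-(e : ℤ)) * v (emb (k := k) P.1) ∧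
    v (vec k e P 1) = exp (-(e : ℤ)) * v (emb (k := k) P.2) := by
  have hvX := v_X_lt v hs hc hX
  have hpow : v (emb (F := F) (k := k) (Polynomial.X ^ e)) = exp (-(e : ℤ)) := by
    rw [map_pow, emb_X, map_pow, hvX, ← exp_nsmul]
    congr 1
    simp
  constructor
  · show v (emb (k := k) (Polynomial.X ^ e * P.1)) = _
    rw [map_mul, map_mul, hpow]
  · show v (emb (k := k) (Polynomial.X ^ e * P.2)) = _
    rw [map_mul, map_mul, hpow]

/-- the point `[x : z]` is congruent to the point at infinity modulo `t` iff `z (0) = 0` -/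
lemma inf_iff (e : ℕ) (P : Polynomial F × Polynomial F) (hP : IsCoprime P.1 P.2) :
    (∀ v : Valuation (RatFunc k) (WithZero (Multiplicative ℤ)), Function.Surjective v →
      (∀ c : k, c ≠ 0 → v (RatFunc.C c) = 1) → v RatFunc.X < 1 →
      v (vec k e P 1) < v (vec k e P 0)) ↔ P.2.coeff 0 = 0 := by
  constructor
  · intro h
    by_contra h0
    obtain ⟨v, hs, hc, hX⟩ := exists_v0 (k := k)
    have h1 := h v hs hc hX
    obtain ⟨e0, e1⟩ := vec_val v hs hc hX e P
    have hz : v (emb (k := k) P.2) = 1 := by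
      rw [emb_apply]
      apply v_unit v hc hX
      rw [Polynomial.coeff_map]
      simpa using h0
    have hx : v (emb (k := k) P.1) ≤ 1 := by
      rw [emb_apply]
      exact v_poly_le v hc hX.le _
    rw [e0, e1, hz, mul_one] at h1
    exact absurd (mul_le_of_le_one_right' hx) (not_le.mpr h1)
  · intro h0 v hs hc hX
    obtain ⟨e0, e1⟩ := vec_val v hs hc hX e P
    have hle : ∀ f : Polynomial F, v (emb (k := k) f) ≤ 1 := by
      intro f
      rw [emb_apply]
      exact v_poly_le v hc hX.le _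
    have hz : v (emb (k := k) P.2) < 1 := by
      rw [eq_X_mul_divX h0, map_mul, map_mul, emb_X]
      exact mul_lt_one_of_lt_of_le hX (hle _)
    have hx : v (emb (k := k) P.1) = 1 := by
      rcases coprime_place v hle P.1 P.2 hP with h | h
      · exact h
      · exact absurd h hz.ne
    rw [e0, e1, hx, mul_one]
    have hpos : (0 : WithZero (Multiplicative ℤ)) < exp (-(e : ℤ)) := exp_pos
    calc exp (-(e : ℤ)) * v (emb (k := k) P.2) < exp (-(e : ℤ)) * 1 :=
          mul_lt_mul_of_pos_left hz hpos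
      _ = exp (-(e : ℤ)) := mul_one _

/-- contribution of the place at infinity for the point at infinity -/
lemma loc_infty0 (v : Valuation (RatFunc k) (WithZero (Multiplicative ℤ)))
    (hs : Function.Surjective v) (hc : ∀ c : k, c ≠ 0 → v (RatFunc.C c) = 1)
    (hX : 1 < v RatFunc.X) (e : ℕ) (c : F) (hc0 : c ≠ 0) :
    log (max (v (vec k e (Polynomial.C c, 0) 0)) (v (vec k e (Polynomial.C c, 0) 1))) = (e : ℤ) := by
  haveI := triv v hc
  have hvX := v_X_gt v hs hc hX
  have h0 : v (vec k e (Polynomial.C c, 0) 0) = exp (e : ℤ) := by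
    show v (emb (k := k) (Polynomial.X ^ e * Polynomial.C c)) = _
    rw [map_mul, map_mul, map_pow, emb_X, map_pow, hvX, emb_C,
      hc _ (by simpa using hc0), mul_one, ← exp_nsmul]
    congr 1
    simp
  have h1 : v (vec k e (Polynomial.C c, 0) 1) ≤ exp (e : ℤ) := by
    show v (emb (k := k) (Polynomial.X ^ e * 0)) ≤ _
    simp
  exact log_max _ _ _ h0.le h1 (Or.inl h0)

/-- the height of the point at infinity -/
lemma height_vec0 (e : ℕ) (c : F) (hc0 : c ≠ 0) :
    (∑ᶠ v : {v : Valuation (RatFunc k) (WithZero (Multiplicative ℤ)) //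
      Function.Surjective v ∧ ∀ c : k, c ≠ 0 → v (RatFunc.C c) = 1},
      ((log (max (v.1 (vec k e (Polynomial.C c, 0) 0)) (v.1 (vec k e (Polynomial.C c, 0) 1))) : ℤ) :
        ℝ)) = 0 := by
  classical
  have hP : IsCoprime (Polynomial.C c, (0 : Polynomial F)).1 (Polynomial.C c, (0 : Polynomial F)).2 :=
    isCoprime_zero_right.mpr (Polynomial.isUnit_C.mpr (isUnit_iff_ne_zero.mpr hc0))
  obtain ⟨v0, hs0, hc0', hX0⟩ := exists_v0 (k := k)
  obtain ⟨v1, hs1, hc1, hX1⟩ := exists_vinf (k := k)
  set A : {v : Valuation (RatFunc k) (WithZero (Multiplicative ℤ)) //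
      Function.Surjective v ∧ ∀ c : k, c ≠ 0 → v (RatFunc.C c) = 1} := ⟨v0, hs0, hc0'⟩ with hA
  set B : {v : Valuation (RatFunc k) (WithZero (Multiplicative ℤ)) //
      Function.Surjective v ∧ ∀ c : k, c ≠ 0 → v (RatFunc.C c) = 1} := ⟨v1, hs1, hc1⟩ with hB
  have hAB : A ≠ B := by
    intro h
    have : v0 = v1 := congrArg Subtype.val h
    rw [this] at hX0
    exact lt_asymm hX0 hX1
  rw [finsum_eq_sum_of_support_subset (s := {A, B})]
  · rw [Finset.sum_pair hAB]
    simp only [hA, hB]
    rw [loc_zero v0 hs0 hc0' hX0 e _ hP, loc_infty0 v1 hs1 hc1 hX1 e c hc0]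
    push_cast
    ring
  · intro w hw
    rw [Function.mem_support] at hw
    rcases lt_trichotomy (w.1 RatFunc.X) 1 with h | h | h
    · have : w = A := Subtype.ext (unique_lt w.1 v0 w.2.1 w.2.2 hs0 hc0' h hX0)
      simp [this]
    · exfalso
      apply hw
      rw [loc_other w.1 w.2.2 h e _ hP]
      simp
    · have : w = B := Subtype.ext (unique_gt w.1 v1 w.2.1 w.2.2 hs1 hc1 h hX1)
      simp [this]

lemma step_C (s n : F) (c : F) : step s n (Polynomial.C c, 0) = (Polynomial.C (c ^ 2), 0) := by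
  have h := (step_inf s n (Polynomial.C c) 0).2.2.1
  rw [mul_zero] at h
  rw [h]
  simp

lemma orb_C (s n : F) (c : F) (m : ℕ) :
    orb s n (Polynomial.C c, 0) m = (Polynomial.C (c ^ 2 ^ m), 0) := by
  induction m with
  | zero => simp [orb]
  | succ m ih =>
    rw [orb_succ, ih, step_C, ← pow_mul, pow_succ]

/-- after one step the two exceptional points are at infinity -/
lemma step_exceptional (s n : F) (hn : n ≠ 0) (P : Polynomial F × Polynomial F)
    (hP : IsCoprime P.1 P.2) (h : P.1 = 0 ∨ P.2 = 0) :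
    ∃ c : F, c ≠ 0 ∧ step s n P = (Polynomial.C c, 0) := by
  obtain ⟨x, z⟩ := P
  simp only at h hP
  rcases h with rfl | rfl
  · have hz := isCoprime_zero_left.mp hP
    obtain ⟨c, hc, rfl⟩ := Polynomial.isUnit_iff.mp hz
    have hc0 : c ≠ 0 := hc.ne_zero
    have h1 := (step_fin s n (0, Polynomial.C c) (by simpa using hc0)).1
    refine ⟨-(n * c ^ 2), neg_ne_zero.mpr (mul_ne_zero hn (pow_ne_zero _ hc0)), ?_⟩
    rw [h1]
    simp [num, numF, den, denF]
  · have hx := isCoprime_zero_right.mp hP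
    obtain ⟨c, hc, rfl⟩ := Polynomial.isUnit_iff.mp hx
    have hc0 : c ≠ 0 := hc.ne_zero
    exact ⟨c ^ 2, pow_ne_zero _ hc0, step_C s n c⟩

end Pool.Agent.Y353.CH
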